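import Mathlib

namespace Pool.Agent.Results.MP_f57d9c_nt.QR

open Finset Matrix

def D (p : ℕ) [Fact p.Prime] (d1 d2 : ℤ) : ℤ :=
  Matrix.det (Matrix.of fun j k : Fin ((p + 1) / 2) =>
    legendreSym p ((j : ℕ) + (k : ℕ)) + legendreSym p ((j : ℕ) - (k : ℕ)) +
      d1 * legendreSym p (((j : ℕ) : ℤ) ^ 2 + d2 * ((k : ℕ) : ℤ) ^ 2))

theorem even_sum {R : Type*} [CommRing R] (m : ℕ) (x y : R) :
    (x + y) ^ (2 * m) + (x - y) ^ (2 * m) =
      ∑ b ∈ range (m + 1), 2 * ((2 * m).choose (2 * b) : R) * (x ^ 2) ^ (m - b) * (y ^ 2) ^ b := by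
  have h : ∀ (n : ℕ) (f : ℕ → R), ∑ i ∈ range (2 * n + 1), (f i + (-1) ^ i * f i) =
      ∑ b ∈ range (n + 1), 2 * f (2 * b) := by
    intro n f
    induction n with
    | zero => simp; ring
    | succ n ih =>
      rw [show 2 * (n + 1) + 1 = 2 * n + 1 + 1 + 1 by ring, sum_range_succ, sum_range_succ, ih,
        sum_range_succ _ (n + 1), show 2 * (n + 1) = 2 * n + 1 + 1 by ring]
      simp only [pow_succ, pow_mul]
      simp
      ring
  rw [add_comm x y, sub_eq_neg_add, add_pow, add_pow, ← sum_add_distrib]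
  refine (sum_congr rfl fun i _ => ?_).trans
    ((h m fun i => y ^ i * x ^ (2 * m - i) * ((2 * m).choose i : R)).trans
      (sum_congr rfl fun b _ => ?_))
  · rw [neg_pow]; ring
  · rw [← pow_mul, ← pow_mul, Nat.mul_sub]; ring

theorem fact_sq (p m : ℕ) [Fact p.Prime] (h : p = 4 * m + 1) :
    (((2 * m).factorial : ℕ) : ZMod p) ^ 2 = -1 := by
  have h1 := ZMod.wilsons_lemma p
  have h2 : ∀ k ≤ 2 * m, (((2 * m + k).factorial : ℕ) : ZMod p) * ((2 * m - k).factorial : ℕ) =
      (-1) ^ k * (((2 * m).factorial : ℕ) : ZMod p) ^ 2 := by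
    intro k
    induction k with
    | zero => intro _; simp [sq]
    | succ k ih =>
      intro hk
      have h3 := ih (by omega)
      obtain ⟨t, ht⟩ : ∃ t, 2 * m - k = t + 1 := ⟨2 * m - k - 1, by omega⟩
      rw [ht, Nat.factorial_succ] at h3
      rw [show 2 * m - (k + 1) = t by omega, ← add_assoc, Nat.factorial_succ]
      have h4 : ((2 * m + k + 1 : ℕ) : ZMod p) + ((t + 1 : ℕ) : ZMod p) = 0 := by
        rw [← Nat.cast_add, show 2 * m + k + 1 + (t + 1) = p by omega, ZMod.natCast_self]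
      push_cast at h3 h4 ⊢
      linear_combination (-1 : ZMod p) * h3 +
        (((2 * m + k).factorial : ℕ) : ZMod p) * ((t.factorial : ℕ) : ZMod p) * h4
  have h3 := h2 (2 * m) le_rfl
  rw [show 2 * m + 2 * m = p - 1 by omega, h1] at h3
  simpa [pow_mul] using h3.symm

theorem result (p : ℕ) [Fact p.Prime] (hp : p % 4 = 1) (d1 d2 : ℤ) (h1 : d1 = 1 ∨ d1 = -1)
    (h2 : d2 = 1 ∨ d2 = -1) :
    ¬ (p : ℤ) ∣ 2 * D p d1 d2 ∧ ∃ y : ℤ, 2 * D p d1 d2 ≡ y ^ 2 [ZMOD p] := by
  obtain ⟨m, hm⟩ : ∃ m, p = 4 * m + 1 := ⟨p / 4, by omega⟩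
  have hm0 : 0 < m := by
    have := (Fact.out : p.Prime).two_le
    omega
  have hn : (p + 1) / 2 = 2 * m + 1 := by omega
  have hh : p / 2 = 2 * m := by omega
  let V : Matrix (Fin (2 * m + 1)) (Fin (2 * m + 1)) (ZMod p) :=
    vandermonde fun j => ((j : ℕ) : ZMod p) ^ 2
  let C : Matrix (Fin (2 * m + 1)) (Fin (2 * m + 1)) (ZMod p) := Matrix.of fun a b =>
    (if (a : ℕ) + b = m then 2 * ((2 * m).choose (2 * b) : ZMod p) else 0) +
      if (a : ℕ) + b = 2 * m then (d1 : ZMod p) * (d2 : ZMod p) ^ (b : ℕ) * (2 * m).choose b else 0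
  have key : ((D p d1 d2 : ℤ) : ZMod p) = (V * C * Vᵀ).det := by
    rw [D, ← det_reindex_self (finCongr hn)]
    refine (RingHom.map_det (Int.castRingHom (ZMod p)) _).trans ?_
    congr 1
    ext j k
    simp only [RingHom.mapMatrix_apply, map_apply, reindex_apply, submatrix_apply, of_apply,
      finCongr_symm, finCongr_apply, Fin.val_cast, eq_intCast, Int.cast_add, Int.cast_mul,
      legendreSym.eq_pow, hh, Int.cast_natCast, Int.cast_sub, Int.cast_pow]
    rw [even_sum, add_comm (((j : ℕ) : ZMod p) ^ 2), add_pow, mul_sum]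
    simp only [mul_apply, V, C, vandermonde_apply, transpose_apply, of_apply, mul_add,
      sum_add_distrib, add_mul]
    congr 1
    · rw [Fin.sum_univ_eq_sum_range (fun b => (∑ a : Fin (2 * m + 1), (((j : ℕ) : ZMod p) ^ 2) ^
        (a : ℕ) * if (a : ℕ) + b = m then 2 * ((2 * m).choose (2 * b) : ZMod p) else 0) *
        (((k : ℕ) : ZMod p) ^ 2) ^ b)]
      rw [← sum_subset (range_mono (show m + 1 ≤ 2 * m + 1 by omega))]
      · refine sum_congr rfl fun b hb => ?_
        have := mem_range.1 hb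
        rw [sum_eq_single ⟨m - b, by omega⟩ (fun a _ ha => by
          rw [if_neg fun h => ha (Fin.ext (by simp only; omega)), mul_zero]) (by simp),
          if_pos (by simp only; omega)]
        ring
      · intro b _ hb
        rw [sum_eq_zero fun a _ => by
          rw [if_neg fun h => hb (mem_range.2 (by omega)), mul_zero], zero_mul]
    · rw [← Fin.sum_univ_eq_sum_range (fun b => (d1 : ZMod p) * (((d2 : ZMod p) *
        ((k : ℕ) : ZMod p) ^ 2) ^ b * (((j : ℕ) : ZMod p) ^ 2) ^ (2 * m - b) *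
        ((2 * m).choose b : ZMod p)))]
      refine sum_congr rfl fun b _ => ?_
      have := b.2
      rw [sum_eq_single ⟨2 * m - b, by omega⟩ (fun a _ ha => by
        rw [if_neg fun h => ha (Fin.ext (by simp only; omega)), mul_zero]) (by simp),
        if_pos (by simp only; omega)]
      ring
  have hV : V.det ≠ 0 := by
    rw [det_vandermonde_ne_zero_iff]
    intro i j h
    have hi := i.2
    have hj := j.2
    rcases sq_eq_sq_iff_eq_or_eq_neg.1 h with h | h
    · exact Fin.ext (by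
        have := (ZMod.natCast_eq_natCast_iff' _ _ _).1 h
        rwa [Nat.mod_eq_of_lt (by omega), Nat.mod_eq_of_lt (by omega)] at this)
    · have : (((i : ℕ) + j : ℕ) : ZMod p) = 0 := by push_cast; rw [h]; ring
      have := Nat.eq_zero_of_dvd_of_lt ((ZMod.natCast_eq_zero_iff _ _).1 this) (by omega)
      exact Fin.ext (by omega)
  have hs := fact_sq p m hm
  have hneg : IsSquare (-1 : ZMod p) := ⟨_, by rw [← hs, sq]⟩
  have hu : ∀ d : ℤ, d = 1 ∨ d = -1 → IsSquare (d : ZMod p) ∧ (d : ZMod p) ≠ 0 := by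
    rintro d (rfl | rfl) <;> simp [hneg]
  have hC : ∃ e : ZMod p, IsSquare e ∧ e ≠ 0 ∧
      C.det = e * ∏ b ∈ range (2 * m + 1), ((2 * m).choose b : ZMod p) := by
    have e1 := det_permute (Fin.revPerm (n := 2 * m + 1)) C
    rw [det_of_lowerTriangular _ (fun a b h => by
      have h' : (a : ℕ) < b := h
      have := b.2
      simp only [submatrix_apply, C, of_apply, id, Fin.revPerm_apply, Fin.val_rev]
      rw [if_neg (by omega), if_neg (by omega), add_zero])] at e1
    have e2 : ∀ a : Fin (2 * m + 1), (C.submatrix (Fin.revPerm (n := 2 * m + 1)) id) a a =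
        (d1 : ZMod p) * (d2 : ZMod p) ^ (a : ℕ) * (2 * m).choose a := fun a => by
      have := a.2
      simp only [submatrix_apply, C, of_apply, id, Fin.revPerm_apply, Fin.val_rev]
      rw [if_neg (by omega), if_pos (by omega), zero_add]
    simp only [e2, prod_mul_distrib] at e1
    rw [Fin.prod_univ_eq_prod_range (fun b => ((2 * m).choose b : ZMod p))] at e1
    obtain ⟨s, hs1, hs⟩ : ∃ s : ℤ, (s = 1 ∨ s = -1) ∧
        ((Equiv.Perm.sign (Fin.revPerm (n := 2 * m + 1)) : ℤˣ) : ℤ) = s :=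
      ⟨_, by rcases Int.units_eq_one_or (Equiv.Perm.sign (Fin.revPerm (n := 2 * m + 1))) with
        h | h <;> simp [h], rfl⟩
    rw [hs] at e1
    refine ⟨(s : ZMod p)⁻¹ * ((∏ _a : Fin (2 * m + 1), (d1 : ZMod p)) *
      ∏ a : Fin (2 * m + 1), (d2 : ZMod p) ^ (a : ℕ)), (hu s hs1).1.inv.mul
        ((Finset.isSquare_prod _ fun _ _ => (hu d1 h1).1).mul
          (Finset.isSquare_prod _ fun _ _ => (hu d2 h2).1.pow _)),
      mul_ne_zero (inv_ne_zero (hu s hs1).2) (mul_ne_zero (prod_ne_zero_iff.2 fun _ _ => (hu d1 h1).2)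
        (prod_ne_zero_iff.2 fun _ _ => pow_ne_zero _ (hu d2 h2).2)), ?_⟩
    rw [mul_assoc, e1, inv_mul_cancel_left₀ (hu s hs1).2]
  obtain ⟨e, he, he0, hC⟩ := hC
  set i : ZMod p := (((2 * m).factorial : ℕ) : ZMod p)
  have hi : i ≠ 0 := fun h => by simp [h] at hs
  set F : ZMod p := ∏ b ∈ range (2 * m + 1), (b.factorial : ZMod p)
  have hF : (∏ b ∈ range (2 * m + 1), ((2 * m).choose b : ZMod p)) * F ^ 2 = i ^ (2 * m + 1) := by
    have : F = ∏ b ∈ range (2 * m + 1), ((2 * m - b).factorial : ZMod p) :=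
      (prod_range_reflect (fun b => (b.factorial : ZMod p)) (2 * m + 1)).symm
    rw [sq]
    nth_rewrite 2 [this]
    rw [← prod_mul_distrib, ← prod_mul_distrib, ← card_range (2 * m + 1), ← prod_const, card_range]
    refine prod_congr rfl fun b hb => ?_
    rw [← mul_assoc]
    exact_mod_cast congrArg (Nat.cast : ℕ → ZMod p)
      (Nat.choose_mul_factorial_mul_factorial (Nat.lt_succ_iff.1 (mem_range.1 hb)))
  have hF0 : F ≠ 0 := fun h => pow_ne_zero _ hi (by rw [← hF, h]; simp)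
  have h20 : (2 : ZMod p) ≠ 0 := fun h => by
    have := Nat.le_of_dvd two_pos ((ZMod.natCast_eq_zero_iff 2 p).1 (by exact_mod_cast h))
    omega
  have fin : ((2 * D p d1 d2 : ℤ) : ZMod p) = e * (V.det * (1 + i) * i ^ m / F) ^ 2 := by
    push_cast
    rw [key, det_mul, det_mul, det_transpose, hC, div_pow, eq_div_of_mul_eq (pow_ne_zero 2 hF0) hF]
    field_simp
    linear_combination (-(i ^ (2 * m))) * hs
  constructor
  · rw [← ZMod.intCast_zmod_eq_zero_iff_dvd, fin]
    refine mul_ne_zero he0 (pow_ne_zero _ (div_ne_zero (mul_ne_zero (mul_ne_zero hV fun h => ?_)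
      (pow_ne_zero _ hi)) hF0))
    exact h20 (by linear_combination hs + (1 - i) * h)
  · obtain ⟨r, hr⟩ := he.mul (IsSquare.sq (V.det * (1 + i) * i ^ m / F))
    refine ⟨r.cast, (ZMod.intCast_eq_intCast_iff _ _ _).1 ?_⟩
    rw [fin, hr]
    simp [sq]

end Pool.Agent.Results.MP_f57d9c_nt.QR
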